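import Mathlib

namespace Pool.Agent.H.MP_cbd977_an

open Matrix
open scoped ComplexOrder

/-- positive semi-definite kernel -/
def PSD {X : Type} (l : X → X → ℂ) : Prop :=
  ∀ (m : ℕ) (z : Fin m → X), (Matrix.of fun i j => l (z i) (z j)).PosSemidef

/-- the block Pick matrix with blocks `(1 - W i * (W j)ᴴ) κ i j` -/
def Pick {ι : Type} {n : ℕ} (κ : ι → ι → ℂ) (W : ι → Matrix (Fin n) (Fin n) ℂ) :
    Matrix (ι × Fin n) (ι × Fin n) ℂ :=
  Matrix.of fun p q => (1 - W p.1 * (W q.1)ᴴ) p.2 q.2 * κ p.1 q.1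

/-- `Φ` is a contractive multiplier of the space of `ℂ^n`-valued functions with kernel `l • 1` -/
def ContrMult {X : Type} {n : ℕ} (l : X → X → ℂ) (Φ : X → Matrix (Fin n) (Fin n) ℂ) : Prop :=
  ∀ (H : Type) [NormedAddCommGroup H] [InnerProductSpace ℂ H] [CompleteSpace H]
    [RKHS ℂ H X (EuclideanSpace ℂ (Fin n))], (∀ x y v, RKHS.kernel H x y v = l x y • v) →
    ∀ F : H, ∃ G : H, (∀ x, (G x).ofLp = Φ x *ᵥ (F x).ofLp) ∧ ‖G‖ ≤ ‖F‖

/-- a space of `ℂ^n`-valued functions with kernel `l • 1` exists -/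
def HasSpace {X : Type} (l : X → X → ℂ) (n : ℕ) : Prop :=
  ∃ (H : Type) (_ : NormedAddCommGroup H) (_ : InnerProductSpace ℂ H) (_ : CompleteSpace H)
    (_ : RKHS ℂ H X (EuclideanSpace ℂ (Fin n))), ∀ x y v, RKHS.kernel H x y v = l x y • v

/-- complete pseudo-Pick pair -/
def PseudoPick {X : Type} (k l : X → X → ℂ) : Prop :=
  ∀ n : ℕ, 1 ≤ n → ∀ (z : Fin n → X) (W : Fin n → Matrix (Fin n) (Fin n) ℂ),
    (Pick (fun i j => k (z i) (z j)) W).PosSemidef →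
      ∃ Φ : X → Matrix (Fin n) (Fin n) ℂ, ContrMult l Φ ∧ ∀ i, Φ (z i) = W i

end Pool.Agent.H.MP_cbd977_an
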