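import Mathlib
import Pool.Agent.H.MP_cbd977_an.Defs

namespace Pool.Agent.H.MP_cbd977_an

open Matrix
open scoped ComplexOrder Kronecker

variable {ι : Type} [Fintype ι] {n : ℕ}

lemma form (κ : ι → ι → ℂ) (W : ι → Matrix (Fin n) (Fin n) ℂ) (h : (Pick κ W).PosSemidef)
    (u : ι → Fin n → ℂ) :
    0 ≤ ∑ x, ∑ y, κ x y * (star (u x) ⬝ᵥ u y - star ((W x)ᴴ *ᵥ u x) ⬝ᵥ ((W y)ᴴ *ᵥ u y)) := by
  have := h.dotProduct_mulVec_nonneg fun p => u p.1 p.2
  convert this using 1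
  have e : ∀ x y, star (u x) ⬝ᵥ u y - star ((W x)ᴴ *ᵥ u x) ⬝ᵥ ((W y)ᴴ *ᵥ u y) =
      star (u x) ⬝ᵥ ((1 - W x * (W y)ᴴ) *ᵥ u y) := by
    intro x y
    rw [sub_mulVec, one_mulVec, dotProduct_sub, star_mulVec, conjTranspose_conjTranspose,
      ← dotProduct_mulVec, mulVec_mulVec]
  simp only [e]
  simp only [dotProduct, mulVec, Pick, of_apply, Fintype.sum_prod_type, Finset.mul_sum, Pi.star_apply]
  refine Finset.sum_congr rfl fun x _ => ?_
  rw [Finset.sum_comm]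
  refine Finset.sum_congr rfl fun a _ => Finset.sum_congr rfl fun y _ =>
    Finset.sum_congr rfl fun b _ => by ring

lemma contr (l : ι → ι → ℂ) (Φ : ι → Matrix (Fin n) (Fin n) ℂ) (h : (Pick l Φ).PosSemidef) :
    ContrMult l Φ := by
  classical
  intro H _ _ _ _ hK F
  let T : (ι → Fin n → ℂ) →ₗ[ℂ] H := ∑ x, (RKHS.kerFun H x).toLinearMap ∘ₗ
    (WithLp.linearEquiv 2 ℂ (Fin n → ℂ)).symm.toLinearMap ∘ₗ LinearMap.proj x
  have hT : ∀ u, T u = ∑ x, RKHS.kerFun H x (WithLp.toLp 2 (u x)) := fun u => by simp [T]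
  let D : (ι → Fin n → ℂ) →ₗ[ℂ] (ι → Fin n → ℂ) :=
    LinearMap.pi fun x => (Φ x)ᴴ.mulVecLin ∘ₗ LinearMap.proj x
  have hD : ∀ u x, D u x = (Φ x)ᴴ *ᵥ u x := fun u x => rfl
  have hin : ∀ u, inner ℂ (T u) (T u) = ∑ x, ∑ y, l x y * (star (u x) ⬝ᵥ u y) := by
    intro u
    rw [hT, sum_inner]
    refine Finset.sum_congr rfl fun x _ => ?_
    rw [inner_sum]
    refine Finset.sum_congr rfl fun y _ => ?_
    rw [RKHS.kerFun_inner, RKHS.kerFun_apply, hK, inner_smul_right,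
      EuclideanSpace.inner_eq_star_dotProduct, dotProduct_comm]
  have hn : ∀ u, ‖(T ∘ₗ D) u‖ ≤ 1 * ‖T u‖ := by
    intro u
    have h1 := form l Φ h u
    simp only [mul_sub, Finset.sum_sub_distrib, ← hD] at h1
    rw [← hin, ← hin, inner_self_eq_norm_sq_to_K, inner_self_eq_norm_sq_to_K, sub_nonneg] at h1
    have h2 : ‖T (D u)‖ ^ 2 ≤ ‖T u‖ ^ 2 := by
      have : ((‖T (D u)‖ ^ 2 : ℝ) : ℂ) ≤ ((‖T u‖ ^ 2 : ℝ) : ℂ) := by simpa using h1
      exact_mod_cast this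
    rw [one_mul]
    exact le_of_sq_le_sq h2 (norm_nonneg _)
  have hs : ∀ x (v : EuclideanSpace ℂ (Fin n)), T (Pi.single x v.ofLp) = RKHS.kerFun H x v := by
    intro x v
    rw [hT, Finset.sum_eq_single x (fun y _ hy => by simp [Pi.single_eq_of_ne hy]) (by simp)]
    simp
  have hd : DenseRange T := by
    have h1 : Submodule.span ℂ {RKHS.kerFun H x v | (x) (v)} ≤ LinearMap.range T := by
      rw [Submodule.span_le]
      rintro _ ⟨x, v, rfl⟩
      exact ⟨_, hs x v⟩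
    have h2 := Submodule.dense_iff_topologicalClosure_eq_top.2 (RKHS.kerFun_dense (𝕜 := ℂ) H)
    exact h2.mono h1
  let A : H →L[ℂ] H := (T ∘ₗ D).extendOfNorm T
  have hA : ‖A‖ ≤ 1 := LinearMap.opNorm_extendOfNorm_le hd zero_le_one hn
  refine ⟨A.adjoint F, fun x => ?_, ?_⟩
  · have : A.adjoint F x = WithLp.toLp 2 (Φ x *ᵥ (F x).ofLp) := by
      refine ext_inner_left ℂ fun v => ?_
      have e : D (Pi.single x v.ofLp) = Pi.single x ((Φ x)ᴴ *ᵥ v.ofLp) := by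
        funext y
        rw [hD]
        rcases eq_or_ne y x with rfl | hy
        · simp
        · simp [Pi.single_eq_of_ne hy]
      rw [← RKHS.kerFun_inner, ContinuousLinearMap.adjoint_inner_right, ← hs,
        LinearMap.extendOfNorm_eq hd ⟨1, hn⟩, LinearMap.comp_apply, e,
        hs x (WithLp.toLp 2 ((Φ x)ᴴ *ᵥ v.ofLp)), RKHS.kerFun_inner,
        EuclideanSpace.inner_eq_star_dotProduct, EuclideanSpace.inner_eq_star_dotProduct,
        star_mulVec, conjTranspose_conjTranspose, dotProduct_comm, ← dotProduct_mulVec,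
        dotProduct_comm]
    rw [this]
  · refine (A.adjoint.le_opNorm F).trans ?_
    rw [LinearIsometryEquiv.norm_map]
    exact mul_le_of_le_one_left (norm_nonneg _) hA

omit [Fintype ι] in
lemma pick_sub {ι' : Type} (κ : ι → ι → ℂ) (W : ι → Matrix (Fin n) (Fin n) ℂ)
    (h : (Pick κ W).PosSemidef) (π : ι' → ι) :
    (Pick (fun x y => κ (π x) (π y)) fun x => W (π x)).PosSemidef :=
  h.submatrix (Prod.map π id)

omit [Fintype ι] in
lemma pick_schur (κ l : ι → ι → ℂ) (W : ι → Matrix (Fin n) (Fin n) ℂ)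
    (h : (Pick κ W).PosSemidef) (hκ : ∀ x y, κ x y ≠ 0)
    (hc : (Matrix.of fun x y => l x y / κ x y).PosSemidef) : (Pick l W).PosSemidef := by
  have e : Pick l W =
      Pick κ W ⊙ (Matrix.of fun x y => l x y / κ x y).submatrix Prod.fst Prod.fst := by
    ext p q
    have := hκ p.1 q.1
    simp only [Pick, of_apply, hadamard_apply, submatrix_apply]
    field_simp
  rw [e]
  exact h.hadamard (hc.submatrix Prod.fst)

lemma same (W : Fin 2 → Matrix (Fin n) (Fin n) ℂ) (c : ℝ) (hc : 0 < c)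
    (h : (Pick (fun _ _ => (c : ℂ)) W).PosSemidef) : W 0 = W 1 := by
  apply conjTranspose_injective
  refine Matrix.ext_of_mulVec_single fun i => ?_
  have h1 := form _ _ h ![Pi.single i 1, -Pi.single i 1]
  simp only [Fin.sum_univ_two, cons_val_zero, cons_val_one, mulVec_neg, star_neg, neg_dotProduct,
    dotProduct_neg] at h1
  set a := (W 0)ᴴ *ᵥ Pi.single i 1
  set b := (W 1)ᴴ *ᵥ Pi.single i 1
  have h2 : (c : ℂ) * (star (a - b) ⬝ᵥ (a - b)) ≤ 0 := by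
    rw [star_sub, sub_dotProduct, dotProduct_sub, dotProduct_sub, ← neg_nonneg]
    convert h1 using 1
    ring
  have h3 : star (a - b) ⬝ᵥ (a - b) ≤ 0 :=
    le_of_mul_le_mul_of_pos_left (a := (c : ℂ)) (by simpa using h2) (Complex.zero_lt_real.2 hc)
  exact sub_eq_zero.1 (dotProduct_star_self_eq_zero.1 (h3.antisymm (dotProduct_star_self_nonneg _)))

def Dg [DecidableEq ι] (W : ι → Matrix (Fin n) (Fin n) ℂ) : Matrix (ι × Fin n) (ι × Fin n) ℂ :=
  Matrix.of fun p q => if p.1 = q.1 then W p.1 p.2 q.2 else 0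

omit [Fintype ι] in
lemma Dg_conj [DecidableEq ι] (W : ι → Matrix (Fin n) (Fin n) ℂ) :
    (Dg W)ᴴ = Dg fun x => (W x)ᴴ := by
  ext ⟨x, a⟩ ⟨y, b⟩
  rcases eq_or_ne x y with rfl | h
  · simp [Dg]
  · simp [Dg, h, h.symm]

lemma pick_eq [DecidableEq ι] (κ : Matrix ι ι ℂ) (W : ι → Matrix (Fin n) (Fin n) ℂ) :
    Pick κ W = κ ⊗ₖ (1 : Matrix (Fin n) (Fin n) ℂ) -
      Dg W * (κ ⊗ₖ (1 : Matrix (Fin n) (Fin n) ℂ)) * (Dg W)ᴴ := by
  rw [Dg_conj]
  ext ⟨x, a⟩ ⟨y, b⟩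
  simp [Pick, Dg, mul_apply, Fintype.sum_prod_type, one_apply, sub_mul, Finset.sum_mul]
  exact Finset.sum_congr rfl fun c _ => by ring

lemma pick_inv [DecidableEq ι] (κ κ' : Matrix ι ι ℂ) (hκ : κ.PosDef) (hκ' : κ * κ' = 1)
    (W : ι → Matrix (Fin n) (Fin n) ℂ) (h : (Pick κ W).PosSemidef) :
    (Pick κ' fun x => (W x)ᴴ).PosSemidef := by
  have h1 : (κ ⊗ₖ (1 : Matrix (Fin n) (Fin n) ℂ)).PosDef := hκ.kronecker PosDef.one
  have h2 : (κ ⊗ₖ (1 : Matrix (Fin n) (Fin n) ℂ))⁻¹ = κ' ⊗ₖ (1 : Matrix (Fin n) (Fin n) ℂ) :=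
    inv_eq_right_inv (by rw [← mul_kronecker_mul, hκ', one_mul, one_kronecker_one])
  rw [pick_eq] at h ⊢
  rw [← h2, ← Dg_conj]
  set K := κ ⊗ₖ (1 : Matrix (Fin n) (Fin n) ℂ)
  have := h1.isUnit.invertible
  have := h1.inv.isUnit.invertible
  rw [← PosDef.fromBlocks₂₂ _ _ h1, PosDef.fromBlocks₁₁ _ _ h1.inv, inv_inv_of_invertible,
    conjTranspose_conjTranspose]
  exact h

lemma psd3 (a b c d e f : ℝ) (ha : 0 < a) (h2 : 0 < a * d - b ^ 2)
    (h3 : 0 ≤ f * (a * d - b ^ 2) - c ^ 2 * d - a * e ^ 2 + 2 * b * c * e) :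
    (!![(a : ℂ), b, c; b, d, e; c, e, f]).PosSemidef := by
  have hD : (diagonal ![((a⁻¹ : ℝ) : ℂ), (((a * (a * d - b ^ 2))⁻¹ : ℝ) : ℂ),
      (((f * (a * d - b ^ 2) - c ^ 2 * d - a * e ^ 2 + 2 * b * c * e) / (a * d - b ^ 2) : ℝ) :
        ℂ)]).PosSemidef := by
    rw [posSemidef_diagonal_iff]
    intro i
    fin_cases i <;> exact Complex.zero_le_real.2 (by positivity)
  convert hD.conjTranspose_mul_mul_same
    !![(a : ℂ), b, c; 0, ((a * d - b ^ 2 : ℝ) : ℂ), ((a * e - b * c : ℝ) : ℂ); 0, 0, 1] using 1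
  have ha' : (a : ℂ) ≠ 0 := by exact_mod_cast ha.ne'
  have h2' : (a : ℂ) * d - b ^ 2 ≠ 0 := by exact_mod_cast h2.ne'
  ext i j
  fin_cases i <;> fin_cases j <;> simp [mul_apply, Fin.sum_univ_three, diagonal] <;>
    field_simp <;> ring

end Pool.Agent.H.MP_cbd977_an
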